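import Pool.Agent.H18.CGR.Stmts

set_option autoImplicit false

noncomputable section

namespace Pool.CGR

namespace EXTAux

theorem single_eq {m : ℕ} (w : List (Fin m)) (c : ℂ) :
    (lp.single 1 w c : E1 m) = c • bb w := by
  unfold bb
  rw [← lp.single_smul, smul_eq_mul, mul_one]

end EXTAux

theorem ext_thm : EXTStmt := by
  intro m G _ _ L L' h
  ext f
  have hf : HasSum (fun w => (lp.single 1 w (f w) : E1 m)) f :=
    lp.hasSum_single ENNReal.one_ne_top f
  have h1 := hf.mapL L
  have h2 := hf.mapL L'
  refine h1.unique ?_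
  convert h2 using 2 with w
  rw [EXTAux.single_eq, map_smul, map_smul, h]

end Pool.CGR
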