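import Pool.Agent.H18.CGR.Stmts

set_option autoImplicit false

noncomputable section

namespace Pool.CGR

namespace LCMAux

variable {α : Type} [DecidableEq α]

theorem T_smul (κ : α → List α → ℂ) (j : α) (u : List α) (c : ℂ) :
    T κ j (Finsupp.single u c) = c • (Finsupp.single (j :: u) (1 : ℂ) +
      ∑ k ∈ Finset.range (u.length + 1), Finsupp.single (u.drop k) (κ j (u.take k))) := by
  rw [← T_single, ← map_smul, Finsupp.smul_single, smul_eq_mul, mul_one]

theorem Lf_smul (κ : α → List α → ℂ) (i : α) (u : List α) (c : ℂ) :
    Lf κ i (Finsupp.single u c) = c • (Finsupp.single (u ++ [i]) (1 : ℂ) +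
      ∑ k ∈ Finset.range (u.length + 1), Finsupp.single (u.take k) (κ i (u.drop k))) := by
  rw [← Lf_single, ← map_smul, Finsupp.smul_single, smul_eq_mul, mul_one]

theorem a1 (κ : α → List α → ℂ) (i j : α) (u : List α) :
    ∑ k ∈ Finset.range ((u ++ [i]).length + 1),
      Finsupp.single ((u ++ [i]).drop k) (κ j ((u ++ [i]).take k)) =
    ∑ k ∈ Finset.range (u.length + 1), Finsupp.single (u.drop k ++ [i]) (κ j (u.take k)) +
      Finsupp.single [] (κ j (u ++ [i])) := by
  have hl : (u ++ [i]).length = u.length + 1 := by simp
  rw [hl, Finset.sum_range_succ]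
  congr 1
  · refine Finset.sum_congr rfl fun k hk => ?_
    have hk' : k ≤ u.length := by
      rw [Finset.mem_range] at hk
      omega
    rw [List.drop_append_of_le_length hk', List.take_append_of_le_length hk']
  · rw [List.drop_of_length_le (by omega), List.take_of_length_le (by omega)]

theorem a2 (κ : α → List α → ℂ) (i j : α) (u : List α) :
    ∑ k ∈ Finset.range ((j :: u).length + 1),
      Finsupp.single ((j :: u).take k) (κ i ((j :: u).drop k)) =
    ∑ k ∈ Finset.range (u.length + 1), Finsupp.single (j :: u.take k) (κ i (u.drop k)) +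
      Finsupp.single [] (κ i (j :: u)) := by
  have hl : (j :: u).length = u.length + 1 := by simp
  rw [hl, Finset.sum_range_succ']
  rfl

theorem dbl (κ : α → List α → ℂ) (i j : α) (u : List α) :
    ∑ K ∈ Finset.range (u.length + 1), ∑ L ∈ Finset.range ((u.take K).length + 1),
      Finsupp.single ((u.take K).drop L) (κ i (u.drop K) * κ j ((u.take K).take L)) =
    ∑ L ∈ Finset.range (u.length + 1), ∑ l ∈ Finset.range ((u.drop L).length + 1),
      Finsupp.single ((u.drop L).take l) (κ j (u.take L) * κ i ((u.drop L).drop l)) := by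
  rw [Finset.sum_sigma', Finset.sum_sigma']
  refine Finset.sum_nbij' (fun p => ⟨p.2, p.1 - p.2⟩) (fun p => ⟨p.1 + p.2, p.1⟩) ?_ ?_ ?_ ?_ ?_
  · rintro ⟨K, L⟩ h
    simp only [Finset.mem_sigma, Finset.mem_range, List.length_take, List.length_drop] at h ⊢
    omega
  · rintro ⟨L, l⟩ h
    simp only [Finset.mem_sigma, Finset.mem_range, List.length_take, List.length_drop] at h ⊢
    omega
  · rintro ⟨K, L⟩ h
    simp only [Finset.mem_sigma, Finset.mem_range, List.length_take, List.length_drop] at h ⊢
    have e : L + (K - L) = K := by omega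
    rw [e]
  · rintro ⟨L, l⟩ h
    simp only [Finset.mem_sigma, Finset.mem_range, List.length_take, List.length_drop] at h ⊢
    have e : L + l - L = l := by omega
    rw [e]
  · rintro ⟨K, L⟩ h
    simp only [Finset.mem_sigma, Finset.mem_range, List.length_take] at h ⊢
    have hLK : L ≤ K := by omega
    have e1 : (u.take K).take L = u.take L := by
      rw [List.take_take, min_eq_left hLK]
    have e2 : (u.drop L).drop (K - L) = u.drop K := by
      rw [List.drop_drop]
      congr 1
      omega
    have e3 : (u.take K).drop L = (u.drop L).take (K - L) := by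
      rw [List.drop_take]
    rw [e1, e2, e3, mul_comm]

theorem core (κ : α → List α → ℂ) (h : CY κ) (i j : α) (u : List α) :
    T κ j (Lf κ i (Finsupp.single u 1)) = Lf κ i (T κ j (Finsupp.single u 1)) := by
  have hc : κ j (u ++ [i]) = κ i (j :: u) := h i j u
  rw [Lf_single, T_single, map_add, map_add, map_sum, map_sum, T_single, Lf_single, a1, a2]
  simp only [T_smul, Lf_smul, smul_add, Finset.smul_sum, Finsupp.smul_single, smul_eq_mul,
    mul_one, Finset.sum_add_distrib]
  rw [dbl, hc, List.cons_append]
  abel

end LCMAux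

theorem lcm_thm : LCMStmt := by
  intro α _ κ h i j f
  induction f using Finsupp.induction_linear with
  | zero => simp
  | add f g hf hg => rw [map_add, map_add, map_add, map_add, hf, hg]
  | single u c =>
    have e : (Finsupp.single u c : List α →₀ ℂ) = c • Finsupp.single u (1 : ℂ) := by
      rw [Finsupp.smul_single, smul_eq_mul, mul_one]
    rw [e, map_smul, map_smul, map_smul, map_smul, LCMAux.core κ h]

end Pool.CGR
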